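import Pool.Agent.Lib.MP_458f0b_nt.Greedy

namespace Pool.Agent.Variants.MP_458f0b_nt.AllModuli

/-- For every sufficiently large modulus `d`, the largest least prime in a reduced residue class
modulo `d` is at least a constant times `φ(d) log d log log d`. -/
theorem result :
    ∃ c : ℝ, 0 < c ∧ ∀ᶠ d : ℕ in Filter.atTop,
      c * ((Nat.totient d : ℝ) * Real.log d * Real.log (Real.log d)) ≤
        ((((Finset.range d).filter (fun a => Nat.Coprime a d)).sup
          (fun a => sInf {p : ℕ | p.Prime ∧ p % d = a}) : ℕ) : ℝ) :=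
  ⟨Pool.Agent.Lib.MP_458f0b_nt.cst / 8, div_pos Pool.Agent.Lib.MP_458f0b_nt.cst_pos (by norm_num),
    Pool.Agent.Lib.MP_458f0b_nt.thmA⟩

end Pool.Agent.Variants.MP_458f0b_nt.AllModuli
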