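import Pool.Agent.Lib.MP_458f0b_nt.ThmB

namespace Pool.Agent.Variants.MP_458f0b_nt.FewPrimeFactors

open Real in
/-- For moduli `d` with at most `exp ((1/2 - ε) log₂ d log₄ d / log₃ d)` distinct prime factors, the
largest least prime in a reduced residue class modulo `d` is at least a constant times
`φ(d) log d (log₂ d)² log₄ d / (log₃ d)²`. -/
theorem result :
    ∃ c : ℝ, 0 < c ∧ ∀ ε : ℝ, 0 < ε → ∀ᶠ d : ℕ in Filter.atTop,
      (d.primeFactors.card : ℝ) ≤
        exp ((1 / 2 - ε) * (log (log d) * log (log (log (log d))) / log (log (log d)))) →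
      c * ((Nat.totient d : ℝ) * log d * log (log d) ^ 2 * log (log (log (log d))) /
          log (log (log d)) ^ 2) ≤
        ((((Finset.range d).filter (fun a => Nat.Coprime a d)).sup
          (fun a => sInf {p : ℕ | p.Prime ∧ p % d = a}) : ℕ) : ℝ) :=
  ⟨Pool.Agent.Lib.MP_458f0b_nt.cst / 300,
    div_pos Pool.Agent.Lib.MP_458f0b_nt.cst_pos (by norm_num),
    fun _ hε => Pool.Agent.Lib.MP_458f0b_nt.thmB hε⟩

end Pool.Agent.Variants.MP_458f0b_nt.FewPrimeFactors
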