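import Pool.Agent.Lib.MP_458f0b_nt.Pois.Grid

open Finset Filter Topology

namespace Pool.Agent.Variants.MP_458f0b_nt.PoissonLaw

open Pool.Agent.Lib.MP_458f0b_nt.Pois in
theorem result (lam : ℝ) (hlam : 0 < lam) (k : ℕ) :
    Tendsto (fun D : ℕ => (∑ d ∈ Finset.Icc 1 D,
      |(((Finset.range d).filter (fun a => Nat.Coprime a d ∧
          ((Finset.range (⌊lam * (Nat.totient d : ℝ) * Real.log d⌋₊ + 1)).filter
            (fun p => p.Prime ∧ p % d = a)).card = k)).card : ℝ) / (Nat.totient d : ℝ) -
        Real.exp (-lam) * lam ^ k / (k.factorial : ℝ)|) / D) atTop (𝓝 0) := by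
  refine dyadic (fun d => |share lam k d - pois lam k|) (fun _ => abs_nonneg _) (fun d => ?_)
    (fun ε hε => dyadic_law lam hlam k ε hε)
  have h1 := share_nonneg lam k d
  have h2 := share_le_one lam k d
  have h3 := pois_nonneg hlam.le k
  have h4 := pois_le_one hlam.le k
  rw [abs_le]; constructor <;> linarith

end Pool.Agent.Variants.MP_458f0b_nt.PoissonLaw
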